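import Pool.Agent.H12.San.Fin

open MeasureTheory Set

/-- For every `n` and all origin-symmetric convex bodies `K, T` in `ℝⁿ`,
`vol(K∩T)·vol(K°∩T) ≤ (1+√(2πn))²·vol(B∩T)²`. -/
theorem Pool.Agent.H21.Old.LinearFactor.result :
    ∀ (n : ℕ) (K T : Set (EuclideanSpace ℝ (Fin n))),
      Convex ℝ K → IsCompact K → (interior K).Nonempty → (∀ x ∈ K, -x ∈ K) →
      Convex ℝ T → IsCompact T → (interior T).Nonempty → (∀ x ∈ T, -x ∈ T) →
      MeasureTheory.volume (K ∩ T) *
          MeasureTheory.volume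
            ({y : EuclideanSpace ℝ (Fin n) | ∀ x ∈ K, inner ℝ x y ≤ (1 : ℝ)} ∩ T)
        ≤ ENNReal.ofReal ((1 + Real.sqrt (2 * Real.pi * n)) ^ 2) *
          MeasureTheory.volume
            (Metric.closedBall (0 : EuclideanSpace ℝ (Fin n)) 1 ∩ T) ^ 2 := by
  intro n K T hK hKc _ hKs hT hTc hTi hTs
  have key := Pool.Agent.H12.San.main_real hK hKc hKs hT hTc hTi hTs
  have fT : volume T ≠ ⊤ := hTc.measure_lt_top.ne
  have f1 : volume (K ∩ T) ≠ ⊤ := ne_top_of_le_ne_top fT (measure_mono inter_subset_right)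
  have f2 : volume ({y : EuclideanSpace ℝ (Fin n) | ∀ x ∈ K, inner ℝ x y ≤ (1 : ℝ)} ∩ T) ≠ ⊤ :=
    ne_top_of_le_ne_top fT (measure_mono inter_subset_right)
  have f3 := Pool.Agent.H12.San.fin_vol (n := n) T 1
  rw [Pool.Agent.H12.San.HH, measureReal_def, measureReal_def, measureReal_def] at key
  rw [← ENNReal.toReal_mul, ← ENNReal.toReal_pow] at key
  rw [← ENNReal.ofReal_toReal (ENNReal.mul_ne_top f1 f2),
    ← ENNReal.ofReal_toReal (ENNReal.pow_ne_top f3), ← ENNReal.ofReal_mul (by positivity)]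
  exact ENNReal.ofReal_le_ofReal key
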