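import Pool.Agent.H82.Ten.HandIn

open MeasureTheory Set

/-- The inequality `vol(K∩T)·vol(K°∩T) ≤ vol(B∩T)²` for every origin-symmetric convex body `K` of
`ℝⁿ` and every symmetric convex body `T` that is, in suitable orthonormal coordinates, a product of
sets each of which has dimension at most `2` or is unconditional. -/
theorem Pool.Agent.H21.Old.PlanarProducts.result :
    ∀ (n : ℕ) (K T : Set (EuclideanSpace ℝ (Fin n))),
      Convex ℝ K → IsCompact K → (interior K).Nonempty → (∀ x ∈ K, -x ∈ K) →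
      Convex ℝ T → IsCompact T → (interior T).Nonempty → (∀ x ∈ T, -x ∈ T) →
      (∃ (p : ℕ) (s : Fin p → ℕ)
        (e : EuclideanSpace ℝ (Fin n) ≃ₗᵢ[ℝ] EuclideanSpace ℝ (Σ i, Fin (s i)))
        (S : ∀ i, Set (EuclideanSpace ℝ (Fin (s i)))),
        (∀ x, x ∈ T ↔ ∀ i, WithLp.toLp 2 (fun j => e x ⟨i, j⟩) ∈ S i) ∧
        ∀ i, s i ≤ 2 ∨ ∀ z ∈ S i, ∀ ε : Fin (s i) → ℝ, (∀ j, ε j = 1 ∨ ε j = -1) →
          WithLp.toLp 2 (fun j => ε j * z j) ∈ S i) →
      MeasureTheory.volume (K ∩ T) *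
          MeasureTheory.volume
            ({y : EuclideanSpace ℝ (Fin n) | ∀ x ∈ K, inner ℝ x y ≤ (1 : ℝ)} ∩ T)
        ≤ MeasureTheory.volume
            (Metric.closedBall (0 : EuclideanSpace ℝ (Fin n)) 1 ∩ T) ^ 2 :=
  fun n K T hK hKc hKi hKs hT hTc hTi hTs h =>
    Pool.Agent.H82.Ten.hand_in n K T hK hKc hKi hKs hT hTc hTi hTs h
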